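import Pool.Agent.FLX.Stmts
import Pool.Agent.FLX.Kit

/-!
# Squad FLX, row KER
-/

set_option autoImplicit false

open scoped InnerProductSpace Topology ContDiff Manifold
open MeasureTheory Filter Set

noncomputable section

namespace Pool.Agent.FLX.H83

open Pool.Agent.Helper42_Paneitz Pool.Agent.Helper82_Vir Pool.Agent.FLX

theorem log_sq_le {u : ℝ} (h0 : 0 ≤ u) (h2 : u ≤ 2) :
    Real.log u ^ 2 ≤ 16 * u ^ (-(1 / 2 : ℝ)) + 1 := by
  rcases h0.eq_or_lt with h | h
  · rw [← h, Real.log_zero]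
    have : (0 : ℝ) ≤ (0 : ℝ) ^ (-(1 / 2 : ℝ)) := Real.rpow_nonneg le_rfl _
    nlinarith
  · rcases le_total u 1 with h1 | h1
    · have hq : 0 < u ^ (-(1 / 4 : ℝ)) := Real.rpow_pos_of_pos h _
      have hl : Real.log (u ^ (-(1 / 4 : ℝ))) = -(1 / 4) * Real.log u := Real.log_rpow h _
      have hb := Real.log_le_sub_one_of_pos hq
      have hn : Real.log u ≤ 0 := Real.log_nonpos h0 h1
      have hs : (u ^ (-(1 / 4 : ℝ))) ^ 2 = u ^ (-(1 / 2 : ℝ)) := by
        rw [← Real.rpow_natCast, ← Real.rpow_mul h0]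
        norm_num
      have h3 : -Real.log u ≤ 4 * u ^ (-(1 / 4 : ℝ)) := by
        rw [hl] at hb; linarith
      have h4 : (-Real.log u) ^ 2 ≤ (4 * u ^ (-(1 / 4 : ℝ))) ^ 2 :=
        pow_le_pow_left₀ (by linarith) h3 2
      rw [mul_pow, hs] at h4
      nlinarith
    · have hp : 0 ≤ Real.log u := Real.log_nonneg h1
      have hb := Real.log_le_sub_one_of_pos h
      have h5 : Real.log u ≤ 1 := by linarith
      have : (0 : ℝ) ≤ u ^ (-(1 / 2 : ℝ)) := Real.rpow_nonneg h0 _
      nlinarith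

theorem one_sub_nonneg (x y : S4) : 0 ≤ 1 - ⟪(x : E5), (y : E5)⟫_ℝ := by
  have h := real_inner_le_norm (x : E5) (y : E5)
  have hx : ‖(x : E5)‖ = 1 := mem_sphere_zero_iff_norm.1 x.2
  have hy : ‖(y : E5)‖ = 1 := mem_sphere_zero_iff_norm.1 y.2
  rw [hx, hy] at h
  linarith

theorem one_sub_le_two (x y : S4) : 1 - ⟪(x : E5), (y : E5)⟫_ℝ ≤ 2 := by
  have h := abs_real_inner_le_norm (x : E5) (y : E5)
  have hx : ‖(x : E5)‖ = 1 := mem_sphere_zero_iff_norm.1 x.2
  have hy : ‖(y : E5)‖ = 1 := mem_sphere_zero_iff_norm.1 y.2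
  rw [hx, hy] at h
  have := (abs_le.1 h).1
  linarith

theorem measurable_ell (x : S4) : Measurable (ell x) := by
  have hc : Continuous fun y : S4 => 1 - ⟪(x : E5), (y : E5)⟫_ℝ :=
    continuous_const.sub (continuous_const.inner continuous_subtype_val)
  exact (Real.measurable_log.comp hc.measurable).neg

/-- Cauchy-Schwarz, one factor continuous -/
theorem abs_integral_mul_le' {f g : S4 → ℝ} (hf : Integrable f sig)
    (hf2 : Integrable (fun y => f y ^ 2) sig) (hg : Continuous g) :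
    |∫ y, f y * g y ∂sig| ≤ √(∫ y, f y ^ 2 ∂sig) * N2 g := by
  obtain ⟨C, hC0, hC⟩ := exists_bound hg
  have hgg := integrable_cont (hg.fun_mul hg)
  have hfg : Integrable (fun y => f y * g y) sig :=
    hf.mul_bdd (c := C) hg.aestronglyMeasurable (Eventually.of_forall fun y => by
      rw [Real.norm_eq_abs]; exact hC y)
  have key : ∀ t : ℝ, 0 ≤ (∫ y, g y * g y ∂sig) * (t * t) + (2 * ∫ y, f y * g y ∂sig) * t +
      ∫ y, f y ^ 2 ∂sig := by
    intro t
    have h1 : 0 ≤ ∫ y, (f y + t * g y) ^ 2 ∂sig := integral_nonneg fun _ => sq_nonneg _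
    have h2 : ∫ y, (f y + t * g y) ^ 2 ∂sig =
        (∫ y, g y * g y ∂sig) * (t * t) + (2 * ∫ y, f y * g y ∂sig) * t +
        ∫ y, f y ^ 2 ∂sig := by
      have e : (fun y => (f y + t * g y) ^ 2) = fun y =>
          ((t * t) * (g y * g y) + (2 * t) * (f y * g y)) + f y ^ 2 := by
        funext y; ring
      have i1 : Integrable (fun y => (t * t) * (g y * g y)) sig := hgg.const_mul _
      have i2 : Integrable (fun y => (2 * t) * (f y * g y)) sig := hfg.const_mul _
      have i3 : Integrable (fun y => (t * t) * (g y * g y) + (2 * t) * (f y * g y)) sig := i1.add i2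
      rw [e, integral_add i3 hf2, integral_add i1 i2, integral_const_mul, integral_const_mul]
      ring
    rw [h2] at h1
    exact h1
  have hd := discrim_le_zero key
  unfold discrim at hd
  have hp : 0 ≤ ∫ y, f y ^ 2 ∂sig := integral_nonneg fun _ => sq_nonneg _
  have h3 : (∫ y, f y * g y ∂sig) ^ 2 ≤ (√(∫ y, f y ^ 2 ∂sig) * N2 g) ^ 2 := by
    rw [mul_pow, N2_sq, Real.sq_sqrt hp]
    have e2 : ∫ y, g y ^ 2 ∂sig = ∫ y, g y * g y ∂sig :=
      integral_congr_ae (Eventually.of_forall fun y => by ring)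
    rw [e2]
    nlinarith
  exact abs_le_of_sq_le_sq h3 (mul_nonneg (Real.sqrt_nonneg _) (N2_nonneg g))

/-- removing the mean value decreases the norm -/
theorem N2_sub_avg_le {f : S4 → ℝ} (hf : Continuous f) : N2 (fun y => f y - avg f) ≤ N2 f := by
  unfold N2
  apply Real.sqrt_le_sqrt
  have hff := integrable_cont (hf.fun_pow 2)
  have i1 : Integrable (fun y => 2 * avg f * f y) sig := (integrable_cont hf).const_mul _
  have i2 : Integrable (fun _ : S4 => avg f ^ 2) sig := integrable_cont continuous_const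
  have e : (fun y => (f y - avg f) ^ 2) = fun y => (f y ^ 2 - 2 * avg f * f y) + avg f ^ 2 := by
    funext y; ring
  have i3 : Integrable (fun y => f y ^ 2 - 2 * avg f * f y) sig := hff.sub i1
  rw [e, integral_add i3 i2, integral_sub hff i1, integral_const_mul, integral_const_sig]
  have hm := msig_pos
  have h : ∫ y, f y ∂sig = msig * avg f := by
    unfold avg
    field_simp
  rw [h]
  nlinarith [mul_nonneg hm.le (sq_nonneg (avg f))]

theorem ker (pow : PowStmt) : KerStmt := by
  obtain ⟨C0, hC0, hP⟩ := pow (1 / 2) (by norm_num)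
  have hm := msig_pos
  have hbd : ∀ x y, ell x y ^ 2 ≤ 16 * (1 - ⟪(x : E5), (y : E5)⟫_ℝ) ^ (-(1 / 2 : ℝ)) + 1 := by
    intro x y
    have := log_sq_le (one_sub_nonneg x y) (one_sub_le_two x y)
    unfold ell
    rw [neg_sq]
    exact this
  have hone : Integrable (fun _ : S4 => (1 : ℝ)) sig := integrable_cont continuous_const
  have i16 : ∀ x : S4, Integrable (fun y : S4 =>
      16 * (1 - ⟪(x : E5), (y : E5)⟫_ℝ) ^ (-(1 / 2 : ℝ))) sig := fun x => (hP x).1.const_mul _
  have idom : ∀ x : S4, Integrable (fun y : S4 =>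
      16 * (1 - ⟪(x : E5), (y : E5)⟫_ℝ) ^ (-(1 / 2 : ℝ)) + 1) sig := fun x => (i16 x).add hone
  have i2 : ∀ x, Integrable (fun y => ell x y ^ 2) sig := by
    intro x
    refine (idom x).mono' ((measurable_ell x).pow_const 2).aestronglyMeasurable
      (Eventually.of_forall fun y => ?_)
    rw [Real.norm_eq_abs, abs_of_nonneg (sq_nonneg _)]
    exact hbd x y
  have hab : ∀ x y, |ell x y| ≤ ell x y ^ 2 + 1 := by
    intro x y
    have h := sq_abs (ell x y)
    nlinarith [sq_nonneg (|ell x y| - 1), abs_nonneg (ell x y)]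
  have i3 : ∀ x, Integrable (fun y => ell x y ^ 2 + 1) sig := fun x => (i2 x).add hone
  have i1 : ∀ x, Integrable (ell x) sig := by
    intro x
    refine (i3 x).mono' (measurable_ell x).aestronglyMeasurable (Eventually.of_forall fun y => ?_)
    rw [Real.norm_eq_abs]
    exact hab x y
  have hM : ∀ x, ∫ y, ell x y ^ 2 ∂sig ≤ 16 * C0 + msig := by
    intro x
    calc ∫ y, ell x y ^ 2 ∂sig
        ≤ ∫ y : S4, (16 * (1 - ⟪(x : E5), (y : E5)⟫_ℝ) ^ (-(1 / 2 : ℝ)) + 1) ∂sig :=
          integral_mono (i2 x) (idom x) fun y => hbd x y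
      _ = 16 * (∫ y : S4, (1 - ⟪(x : E5), (y : E5)⟫_ℝ) ^ (-(1 / 2 : ℝ)) ∂sig) + msig := by
          rw [integral_add (i16 x) hone, integral_const_mul, integral_const_sig, mul_one]
      _ ≤ 16 * C0 + msig := by have := (hP x).2; linarith
  set M : ℝ := 16 * C0 + msig with hMd
  have hM0 : 0 ≤ M := by positivity
  have hs : 0 ≤ √M / (6 * msig) := by positivity
  refine ⟨i1, i2, M + msig + √M / (6 * msig), by positivity, fun x => ?_, fun f hf x => ?_⟩
  · calc ∫ y, |ell x y| ∂sig ≤ ∫ y, (ell x y ^ 2 + 1) ∂sig :=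
          integral_mono (i1 x).abs (i3 x) fun y => hab x y
      _ = (∫ y, ell x y ^ 2 ∂sig) + msig := by
          rw [integral_add (i2 x) hone, integral_const_sig, mul_one]
      _ ≤ M + msig + √M / (6 * msig) := by have := hM x; linarith
  · have hcs := abs_integral_mul_le' (i1 x) (i2 x) (hf.fun_sub (continuous_const (y := avg f)))
    have h1 : √(∫ y, ell x y ^ 2 ∂sig) ≤ √M := Real.sqrt_le_sqrt (hM x)
    have h2 := N2_sub_avg_le hf
    have h3 : |K f x| ≤ √M / (6 * msig) * N2 f := by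
      unfold K
      rw [abs_div, abs_of_pos (by positivity : 0 < 6 * msig), div_mul_eq_mul_div]
      refine div_le_div_of_nonneg_right (hcs.trans ?_) (by positivity)
      exact mul_le_mul h1 h2 (N2_nonneg _) (Real.sqrt_nonneg _)
    have h4 : 0 ≤ (M + msig) * N2 f := mul_nonneg (by positivity) (N2_nonneg f)
    calc |K f x| ≤ √M / (6 * msig) * N2 f := h3
      _ ≤ (M + msig + √M / (6 * msig)) * N2 f := by linarith

end Pool.Agent.FLX.H83
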